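import Pool.Agent.MWH.StmtsC

/-!
The canonical edge K10 is join prime.
-/

set_option autoImplicit false

namespace Pool.Agent.MWH.H24

open Pool.Agent.Helper14_MV Pool.Agent.Helper2_MV Pool.Agent.MVO Pool.Agent.MWL Pool.Agent.MWS

theorem vs_xy (a b : ℕ → ℕ) (i : ℕ) : Vs a b i Stt.xy := fun h => by cases h

theorem vs_yx (a b : ℕ → ℕ) (i : ℕ) : Vs a b i Stt.yx := fun h => by cases h

theorem vdK : Vd 3 (vc [0, 1, 0, 1]) (vc [1, 1, 2, 0]) 1 where
  ik := by decide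
  ai := by decide
  bi := by decide
  un := by
    intro j hj h
    have h1 : j = 0 ∨ j = 2 ∨ j = 3 := by omega
    rcases h1 with rfl | rfl | rfl <;> decide
  da := by decide
  db := by decide

theorem llK : LL2 3 (vc [0, 1, 0, 1]) 1 3 where
  uv := by decide
  vk := by decide
  au := by decide
  av := by decide
  az := by
    intro j hj h h'
    have h1 : j = 0 ∨ j = 2 := by omega
    rcases h1 with rfl | rfl <;> decide

theorem k10 (hjp : JpcStmt) (hab : AbjStmt) (hao : AboStmt) (hhv : HvjStmt) (hlh : LhrStmt)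
    (hj2 : J2sStmt) : K10Stmt := by
  intro β hS
  have hB : BaseH β := hS.toBaseH
  refine hjp β hB 3 (vc [0, 1, 0, 1]) (vc [1, 1, 2, 0]) 1 1 3 (fun j => j = 2) vdK llK
    (fun j _ h => by subst h; decide) Stt.xy Stt.yx (Or.inl ⟨by decide, by decide, rfl, rfl⟩)
    ?_ ?_
  · intro θ hle _ hJ
    exact (hj2 β θ hS hle hJ 3 (vc [0, 1, 0, 1]) (vc [1, 1, 2, 0]) 1 1 3 vdK llK
      (Or.inr (Or.inr ⟨by decide, 2, by decide, by decide, by decide⟩))) _ _ (vs_xy _ _ _)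
        (vs_yx _ _ _)
  · intro θ hle _ j hj hF hA
    have h1 : j = 0 ∨ j = 1 ∨ j = 3 := by omega
    rcases h1 with rfl | rfl | rfl
    · obtain ⟨v1, r1⟩ := hab β θ hB hle 3 _ _ 1 vdK 0 hj hA (Or.inr (by decide))
      obtain ⟨v2', r2⟩ := hhv β hB 3 _ _ 1 0 v1 (by decide) (by decide)
      have r3 := (hlh β hS 3 _ _ 1 3 v2' (by decide) (by decide) (by decide) (by decide)
        (by decide)).2 ⟨2, by decide, by decide, by decide⟩ Stt.xy Stt.yx (vs_xy _ _ _)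
          (vs_yx _ _ _)
      have r4 := (r2 θ hle Stt.xy Stt.yx (vs_xy _ _ _) (vs_yx _ _ _)).2 (hle _ _ r3)
      exact θ.trans (r1 Stt.xy (vs_xy _ _ _)) (θ.trans r4 (θ.symm (r1 Stt.yx (vs_yx _ _ _))))
    · obtain ⟨v1, r1⟩ := hab β θ hB hle 3 _ _ 1 vdK 1 hj hA (Or.inl rfl)
      have r3 := (hlh β hS 3 _ _ 1 3 v1 (by decide) (by decide) (by decide) (by decide)
        (by decide)).2 ⟨2, by decide, by decide, by decide⟩ Stt.xy Stt.yx (vs_xy _ _ _)
          (vs_yx _ _ _)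
      exact θ.trans (r1 Stt.xy (vs_xy _ _ _))
        (θ.trans (hle _ _ r3) (θ.symm (r1 Stt.yx (vs_yx _ _ _))))
    · exact hao β θ hB hle 3 _ _ 1 vdK 3 hj (by decide) (Or.inr ⟨by decide, hA⟩) _ _
        (vs_xy _ _ _) (vs_yx _ _ _)

end Pool.Agent.MWH.H24
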